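import Pool.Agent.Run7.h547.KM.Iface

/-!
# Piece REC of project KM (helper547), proved by helper417

The recursion for the coefficients of `λ (a [L(2)] + b [L(0)])` from its logarithmic derivative.
-/

set_option autoImplicit false

namespace Run7.h417.KM

open Pool.Agent.Run7.h547.KM PowerSeries

/-- `t d/dt` -/
noncomputable def DD (f : PowerSeries Lam) : PowerSeries Lam := X * derivative Lam f

theorem coeff_DD (f : PowerSeries Lam) (m : ℕ) :
    coeff m (DD f) = (m : Lam) * coeff m f := by
  unfold DD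
  cases m with
  | zero => simp
  | succ k =>
    rw [coeff_succ_X_mul, coeff_derivative]
    push_cast
    ring

theorem DD_mul (f g : PowerSeries Lam) : DD (f * g) = DD f * g + f * DD g := by
  unfold DD
  rw [Derivation.leibniz]
  simp only [smul_eq_mul]
  ring

/-- `D f = - h f` -/
def LD (f h : PowerSeries Lam) : Prop := DD f = - (h * f)

theorem LD_mul {f g h k : PowerSeries Lam} (hf : LD f h) (hg : LD g k) : LD (f * g) (h + k) := by
  unfold LD at *
  rw [DD_mul, hf, hg]
  ring

theorem LD_one : LD 1 0 := by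
  unfold LD DD
  simp

theorem LD_pow {f h : PowerSeries Lam} (hf : LD f h) (e : ℕ) :
    LD (f ^ e) ((e : PowerSeries Lam) * h) := by
  induction e with
  | zero => simpa using LD_one
  | succ e ih =>
    have h1 := LD_mul ih hf
    rw [pow_succ]
    have h2 : ((e + 1 : ℕ) : PowerSeries Lam) * h = (e : PowerSeries Lam) * h + h := by
      push_cast
      ring
    rw [h2]
    exact h1

theorem LD_prod (s : Finset ℕ) (f h : ℕ → PowerSeries Lam) (H : ∀ i ∈ s, LD (f i) (h i)) :
    LD (∏ i ∈ s, f i) (∑ i ∈ s, h i) := by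
  classical
  induction s using Finset.induction_on with
  | empty => simpa using LD_one
  | insert i s hi ih =>
    rw [Finset.prod_insert hi, Finset.sum_insert hi]
    exact LD_mul (H i (Finset.mem_insert_self i s))
      (ih (fun j hj => H j (Finset.mem_insert_of_mem hj)))

/-- `∑_{d ≥ 1} c ^ d t ^ (n d)` -/
noncomputable def gg (n : ℕ) (c : Lam) : PowerSeries Lam :=
  mk (fun i => if i ≠ 0 ∧ n ∣ i then c ^ (i / n) else 0)

theorem coeff_mono_mul (n : ℕ) (c : Lam) (g : PowerSeries Lam) (i : ℕ) :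
    coeff i (monomial n c * g) = if n ≤ i then c * coeff (i - n) g else 0 := by
  have h : (monomial n c : PowerSeries Lam) = C c * X ^ n := by
    ext k
    rw [coeff_C_mul, coeff_X_pow, coeff_monomial]
    split_ifs <;> simp
  rw [h, mul_assoc, coeff_C_mul, coeff_X_pow_mul']
  split_ifs <;> simp

theorem u_gg (n : ℕ) (hn : 1 ≤ n) (c : Lam) :
    (1 - monomial n c) * gg n c = monomial n c := by
  ext1 i
  rw [sub_mul, one_mul, map_sub, coeff_mono_mul, coeff_monomial]
  unfold gg
  rw [coeff_mk, coeff_mk]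
  by_cases hi : n ≤ i
  · obtain ⟨k, rfl⟩ := Nat.exists_eq_add_of_le hi
    have h1 : n + k ≠ 0 := by omega
    have h2 : n ∣ n + k ↔ n ∣ k := by
      rw [Nat.dvd_add_right (dvd_refl n)]
    rw [if_pos hi, Nat.add_sub_cancel_left]
    by_cases hk : n ∣ k
    · have h3 : (n + k) / n = k / n + 1 := by
        rw [Nat.add_div_left k (by omega)]
      rw [if_pos ⟨h1, h2.2 hk⟩, h3]
      by_cases hk0 : k = 0
      · subst hk0
        simp
      · have h4 : n + k ≠ n := by omega
        rw [if_pos ⟨hk0, hk⟩, if_neg h4, pow_succ]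
        ring
    · have h4 : n + k ≠ n := by
        intro h
        apply hk
        have : k = 0 := by omega
        subst this
        exact dvd_zero n
      have h5 : ¬ (n + k ≠ 0 ∧ n ∣ n + k) := fun h => hk (h2.1 h.2)
      have h6 : ¬ (k ≠ 0 ∧ n ∣ k) := fun h => hk h.2
      rw [if_neg h5, if_neg h6, if_neg h4]
      ring
  · have h4 : i ≠ n := by omega
    have h5 : ¬ (i ≠ 0 ∧ n ∣ i) := by
      rintro ⟨h0, h1⟩
      exact hi (Nat.le_of_dvd (by omega) h1)
    rw [if_neg hi, if_neg h5, if_neg h4]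
    ring

theorem LD_u (n : ℕ) (hn : 1 ≤ n) (c : Lam) :
    LD (1 - monomial n c) ((n : PowerSeries Lam) * gg n c) := by
  unfold LD
  have h1 : (n : PowerSeries Lam) * gg n c * (1 - monomial n c) =
      (n : PowerSeries Lam) * monomial n c := by
    rw [mul_assoc, mul_comm (gg n c), u_gg n hn c]
  rw [h1]
  ext1 i
  have h2 : (n : PowerSeries Lam) = C (n : Lam) := by simp
  rw [coeff_DD, map_sub, map_neg, h2, coeff_C_mul, coeff_monomial, coeff_one]
  by_cases hi : i = n
  · subst hi
    have h0 : i ≠ 0 := by omega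
    rw [if_neg h0, if_pos rfl]
    ring
  · rw [if_neg hi]
    by_cases h0 : i = 0
    · subst h0
      simp
    · rw [if_neg h0]
      ring

theorem coeff_gg_mul (n : ℕ) (hn : 1 ≤ n) (c : Lam) (P : PowerSeries Lam) (m : ℕ) :
    coeff m (gg n c * P) =
      ∑ d ∈ Finset.Icc 1 (m / n), c ^ d * coeff (m - n * d) P := by
  rw [coeff_mul, Finset.Nat.sum_antidiagonal_eq_sum_range_succ
    (fun i j => coeff i (gg n c) * coeff j P)]
  have h1 : ∀ i ∈ Finset.range (m + 1), coeff i (gg n c) * coeff (m - i) P =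
      if i ≠ 0 ∧ n ∣ i then c ^ (i / n) * coeff (m - i) P else 0 := by
    intro i _
    unfold gg
    rw [coeff_mk]
    split_ifs <;> simp
  rw [Finset.sum_congr rfl h1, ← Finset.sum_filter]
  symm
  refine Finset.sum_nbij' (fun d => n * d) (fun i => i / n) ?_ ?_ ?_ ?_ ?_
  · intro d hd
    rw [Finset.mem_Icc] at hd
    rw [Finset.mem_filter, Finset.mem_range]
    have h2 : n * d ≤ m := by
      calc n * d ≤ n * (m / n) := Nat.mul_le_mul_left n hd.2
        _ ≤ m := Nat.mul_div_le m n
    refine ⟨by omega, ?_, dvd_mul_right n d⟩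
    have : 0 < n * d := Nat.mul_pos (by omega) (by omega)
    omega
  · intro i hi
    rw [Finset.mem_filter, Finset.mem_range] at hi
    obtain ⟨h2, h3, h4⟩ := hi
    rw [Finset.mem_Icc]
    refine ⟨?_, Nat.div_le_div_right (by omega)⟩
    exact Nat.div_pos (Nat.le_of_dvd (by omega) h4) (by omega)
  · intro d _
    exact Nat.mul_div_cancel_left d (by omega)
  · intro i hi
    rw [Finset.mem_filter] at hi
    exact Nat.mul_div_cancel' hi.2.2
  · intro d _
    rw [Nat.mul_div_cancel_left d (by omega)]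

/-- the logarithmic derivative of a factor -/
noncomputable def hh (a b : ℕ → ℕ) (n : ℕ) : PowerSeries Lam :=
  (a n : PowerSeries Lam) * ((n : PowerSeries Lam) * gg n (zz 1)) +
    (a n : PowerSeries Lam) * ((n : PowerSeries Lam) * gg n (zz (-1))) +
    ((a n + b n : ℕ) : PowerSeries Lam) * ((n : PowerSeries Lam) * gg n (zz 0))

theorem LD_factor (a b : ℕ → ℕ) (n : ℕ) (hn : 1 ≤ n) :
    LD (factor n (a n) (b n)) (hh a b n) := by
  unfold factor hh bin
  exact LD_mul (LD_mul (LD_pow (LD_u n hn _) _) (LD_pow (LD_u n hn _) _))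
    (LD_pow (LD_u n hn _) _)

/-- `f = 1 + O(t ^ n)` -/
def TT (n : ℕ) (f : PowerSeries Lam) : Prop := (X : PowerSeries Lam) ^ n ∣ f - 1

theorem TT_mul {n : ℕ} {f g : PowerSeries Lam} (hf : TT n f) (hg : TT n g) : TT n (f * g) := by
  unfold TT at *
  have h : f * g - 1 = (f - 1) * g + (g - 1) := by ring
  rw [h]
  exact dvd_add (Dvd.dvd.mul_right hf g) hg

theorem TT_one (n : ℕ) : TT n 1 := by
  unfold TT
  simp

theorem TT_pow {n : ℕ} {f : PowerSeries Lam} (hf : TT n f) (e : ℕ) : TT n (f ^ e) := by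
  induction e with
  | zero => simpa using TT_one n
  | succ e ih =>
    rw [pow_succ]
    exact TT_mul ih hf

theorem TT_bin (n : ℕ) (w : ℤ) : TT n (bin n w) := by
  unfold TT bin
  rw [X_pow_dvd_iff]
  intro m hm
  have h1 : m ≠ n := by omega
  rw [map_sub, map_sub, coeff_monomial, if_neg h1]
  ring

theorem TT_factor (n a b : ℕ) : TT n (factor n a b) := by
  unfold factor
  exact TT_mul (TT_mul (TT_pow (TT_bin _ _) _) (TT_pow (TT_bin _ _) _)) (TT_pow (TT_bin _ _) _)

theorem coeff_mul_TT {n : ℕ} {f : PowerSeries Lam} (hf : TT n f) (P : PowerSeries Lam) (j : ℕ)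
    (hj : j < n) : coeff j (P * f) = coeff j P := by
  have h1 : P * f = P + P * (f - 1) := by ring
  have h2 : coeff j (P * (f - 1)) = 0 := by
    have h3 : (X : PowerSeries Lam) ^ n ∣ P * (f - 1) := Dvd.dvd.mul_left hf P
    exact X_pow_dvd_iff.1 h3 j hj
  rw [h1, map_add, h2, add_zero]

theorem coeff_prod_eq (a b : ℕ → ℕ) (m j : ℕ) (hj : j ≤ m) :
    coeff j (∏ n ∈ Finset.Icc 1 m, factor n (a n) (b n)) = lamCoeff a b j := by
  induction m, hj using Nat.le_induction with
  | base => rfl
  | succ m hm ih =>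
    rw [Finset.prod_Icc_succ_top (by omega), coeff_mul_TT (TT_factor _ _ _) _ _ (by omega), ih]

/-- the coefficient at `z ^ w` -/
noncomputable def ev (w : ℤ) : Lam →+ ℤ where
  toFun x := x.coeff w
  map_zero' := rfl
  map_add' _ _ := rfl

theorem ev_nat_mul (w : ℤ) (k : ℕ) (x : Lam) : ev w ((k : Lam) * x) = (k : ℤ) * ev w x := by
  rw [← nsmul_eq_mul, map_nsmul, nsmul_eq_mul]

theorem zz_pow (v : ℤ) (d : ℕ) : zz v ^ d = zz (d * v) := by
  unfold zz
  rw [AddMonoidAlgebra.single_pow]
  simp

theorem ev_zz_mul (w v : ℤ) (x : Lam) : ev w (zz v * x) = ev (w - v) x := by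
  show (AddMonoidAlgebra.single v 1 * x).coeff w = x.coeff (w - v)
  rw [AddMonoidAlgebra.coeff_single_mul_apply, one_mul]
  congr 1
  ring

theorem coeff_nat_mul (m k : ℕ) (f : PowerSeries Lam) :
    coeff m ((k : PowerSeries Lam) * f) = (k : Lam) * coeff m f := by
  have h2 : (k : PowerSeries Lam) = C (k : Lam) := by simp
  rw [h2, coeff_C_mul]

theorem t_REC : S_REC := by
  intro a b
  refine ⟨?_, ?_⟩
  · intro w
    unfold cf lamCoeff
    have h : Finset.Icc 1 0 = (∅ : Finset ℕ) := rfl
    rw [h, Finset.prod_empty, coeff_one, if_pos rfl, AddMonoidAlgebra.one_def,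
      AddMonoidAlgebra.coeff_single_apply]
    by_cases hw : w = 0
    · subst hw
      simp
    · rw [if_neg hw, if_neg (fun h => hw h.symm)]
  · intro m hm w
    have h1 := LD_prod (Finset.Icc 1 m) (fun n => factor n (a n) (b n)) (hh a b)
      (fun n hn => LD_factor a b n (Finset.mem_Icc.1 hn).1)
    unfold LD at h1
    have h2 := congrArg (fun f => ev w (coeff m f)) h1
    simp only [coeff_DD, ev_nat_mul] at h2
    rw [coeff_prod_eq a b m m le_rfl] at h2
    have h3 : ev w (lamCoeff a b m) = cf a b m w := rfl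
    rw [h3] at h2
    rw [h2, map_neg, map_neg, Finset.sum_mul, map_sum, map_sum]
    congr 1
    apply Finset.sum_congr rfl
    intro n hn
    have hn1 : 1 ≤ n := (Finset.mem_Icc.1 hn).1
    set P := ∏ n ∈ Finset.Icc 1 m, factor n (a n) (b n) with hP
    have h4 : ∀ v : ℤ, ev w (coeff m (gg n (zz v) * P)) =
        ∑ d ∈ Finset.Icc 1 (m / n), cf a b (m - n * d) (w - d * v) := by
      intro v
      rw [coeff_gg_mul n hn1, map_sum]
      apply Finset.sum_congr rfl
      intro d _
      rw [zz_pow, ev_zz_mul, hP, coeff_prod_eq a b m (m - n * d) (Nat.sub_le _ _)]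
      rfl
    have h5 : hh a b n * P = (a n : PowerSeries Lam) * ((n : PowerSeries Lam) *
        (gg n (zz 1) * P)) + (a n : PowerSeries Lam) * ((n : PowerSeries Lam) *
        (gg n (zz (-1)) * P)) + ((a n + b n : ℕ) : PowerSeries Lam) *
        ((n : PowerSeries Lam) * (gg n (zz 0) * P)) := by
      unfold hh
      ring
    rw [h5, map_add, map_add, map_add, map_add]
    simp only [coeff_nat_mul, ev_nat_mul, h4]
    rw [Finset.mul_sum, Finset.mul_sum, Finset.mul_sum, Finset.mul_sum, Finset.mul_sum,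
      Finset.mul_sum, ← Finset.sum_add_distrib, ← Finset.sum_add_distrib]
    apply Finset.sum_congr rfl
    intro d _
    have e1 : w - (d : ℤ) * 1 = w - d := by ring
    have e2 : w - (d : ℤ) * (-1) = w + d := by ring
    have e3 : w - (d : ℤ) * 0 = w := by ring
    rw [e1, e2, e3]
    push_cast
    ring

end Run7.h417.KM
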